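import Mathlib

/-! Counting the multiples of the members of a sparse family of integers which are not much larger
than the member. -/

set_option autoImplicit false

namespace Pool.Agent.X35.SP

open Finset

/-- the number of multiples `N ≤ X` of `r` with `N ≤ r ^ m` -/
theorem mult_le {r m X : ℕ} (hr : 1 ≤ r) (hX : 1 ≤ X) {a : ℝ} (ha0 : 0 ≤ a) (ha1 : a ≤ 1) :
    (((Ioc 0 X).filter (fun N => r ∣ N ∧ N ≤ r ^ m)).card : ℝ) ≤
      (X : ℝ) ^ (1 - a) * (r : ℝ) ^ (m * a - 1) := by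
  have hrp : (0 : ℝ) < r := by exact_mod_cast hr
  set Y : ℕ := min X (r ^ m) with hY
  have hsub : (Ioc 0 X).filter (fun N => r ∣ N ∧ N ≤ r ^ m) ⊆ (Ioc 0 Y).filter (fun N => r ∣ N) := by
    intro N hN
    rw [mem_filter, mem_Ioc] at hN ⊢
    exact ⟨⟨hN.1.1, le_min hN.1.2 hN.2.2⟩, hN.2.1⟩
  have h1 : ((Ioc 0 X).filter (fun N => r ∣ N ∧ N ≤ r ^ m)).card ≤ Y / r := by
    refine (card_le_card hsub).trans ?_
    rw [Nat.Ioc_filter_dvd_card_eq_div]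
  have hY1 : 1 ≤ Y := le_min hX (Nat.one_le_pow _ _ hr)
  have hYp : (0 : ℝ) < Y := by exact_mod_cast hY1
  have h2 : (((Ioc 0 X).filter (fun N => r ∣ N ∧ N ≤ r ^ m)).card : ℝ) ≤ Y / r := by
    calc (((Ioc 0 X).filter (fun N => r ∣ N ∧ N ≤ r ^ m)).card : ℝ) ≤ ((Y / r : ℕ) : ℝ) := by
          exact_mod_cast h1
      _ ≤ Y / r := Nat.cast_div_le
  have hYX : (Y : ℝ) ≤ X := by exact_mod_cast min_le_left _ _
  have hYr : (Y : ℝ) ≤ (r : ℝ) ^ m := by exact_mod_cast min_le_right X (r ^ m)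
  have h3 : (Y : ℝ) ≤ (X : ℝ) ^ (1 - a) * (r : ℝ) ^ (m * a) := by
    calc (Y : ℝ) = (Y : ℝ) ^ (1 - a) * (Y : ℝ) ^ a := by
          rw [← Real.rpow_add hYp]
          norm_num
      _ ≤ (X : ℝ) ^ (1 - a) * ((r : ℝ) ^ m) ^ a := by
          refine mul_le_mul (Real.rpow_le_rpow hYp.le hYX (by linarith))
            (Real.rpow_le_rpow hYp.le hYr ha0) (Real.rpow_nonneg hYp.le _)
            (Real.rpow_nonneg (Nat.cast_nonneg _) _)
      _ = (X : ℝ) ^ (1 - a) * (r : ℝ) ^ (m * a) := by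
          rw [← Real.rpow_natCast, ← Real.rpow_mul hrp.le]
  refine h2.trans ?_
  rw [Real.rpow_sub hrp, Real.rpow_one, ← mul_div_assoc]
  exact div_le_div_of_nonneg_right h3 hrp.le

/-- the number of integers which are multiples of a member of the family -/
theorem count_mult {T : Type} (r : T → ℕ) (hr : ∀ t, 1 ≤ r t) {σ D : ℝ} (hσ0 : 0 ≤ σ) (hσ : σ ≤ 1)
    (hD : ∀ F : Finset T, ∑ t ∈ F, (r t : ℝ) ^ (-σ) ≤ D) {m : ℕ} (hm : 1 ≤ m) (P : Set ℕ)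
    (hP : ∀ N ∈ P, ∃ t, r t ∣ N ∧ N ≤ (r t) ^ m) [DecidablePred (· ∈ P)] (X : ℕ) (hX : 1 ≤ X) :
    (((Ioc 0 X).filter (fun N => N ∈ P)).card : ℝ) ≤ D * (X : ℝ) ^ (1 - (1 - σ) / m) := by
  classical
  have hm1 : (1 : ℝ) ≤ m := by exact_mod_cast hm
  have hm0 : (0 : ℝ) < m := by linarith
  obtain ⟨a, ha⟩ : ∃ a : ℝ, a = (1 - σ) / m := ⟨_, rfl⟩
  have ha0 : 0 ≤ a := by rw [ha]; exact div_nonneg (by linarith) hm0.le
  have ha1 : a ≤ 1 := by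
    rw [ha, div_le_one hm0]
    linarith
  have hma : m * a - 1 = -σ := by
    rw [ha]
    field_simp
    ring
  rw [← ha]
  have hch : ∀ N : ℕ, ∃ t : Option T, N ∈ P → ∃ s, t = some s ∧ r s ∣ N ∧ N ≤ (r s) ^ m := by
    intro N
    by_cases h : N ∈ P
    · obtain ⟨s, h1, h2⟩ := hP N h
      exact ⟨some s, fun _ => ⟨s, rfl, h1, h2⟩⟩
    · exact ⟨none, fun h' => absurd h' h⟩
  choose f hf using hch
  set G := (Ioc 0 X).filter (fun N => N ∈ P) with hG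
  set F : Finset T := (G.image f).eraseNone with hF
  have hcov : G ⊆ F.biUnion fun t => (Ioc 0 X).filter (fun N => r t ∣ N ∧ N ≤ (r t) ^ m) := by
    intro N hN
    have hN' := mem_filter.1 hN
    obtain ⟨s, h1, h2, h3⟩ := hf N hN'.2
    rw [mem_biUnion]
    refine ⟨s, ?_, ?_⟩
    · rw [hF, mem_eraseNone]
      exact mem_image.2 ⟨N, hN, h1⟩
    · rw [mem_filter]
      exact ⟨hN'.1, h2, h3⟩
  calc (G.card : ℝ) ≤ ((F.biUnion fun t =>
        (Ioc 0 X).filter (fun N => r t ∣ N ∧ N ≤ (r t) ^ m)).card : ℝ) := by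
        exact_mod_cast card_le_card hcov
    _ ≤ ∑ t ∈ F, (((Ioc 0 X).filter (fun N => r t ∣ N ∧ N ≤ (r t) ^ m)).card : ℝ) := by
        exact_mod_cast card_biUnion_le
    _ ≤ ∑ t ∈ F, (X : ℝ) ^ (1 - a) * (r t : ℝ) ^ (-σ) := by
        refine sum_le_sum fun t _ => ?_
        have h := mult_le (m := m) (hr t) hX ha0 ha1
        rwa [hma] at h
    _ = (∑ t ∈ F, (r t : ℝ) ^ (-σ)) * (X : ℝ) ^ (1 - a) := by
        rw [← mul_sum, mul_comm]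
    _ ≤ D * (X : ℝ) ^ (1 - a) := mul_le_mul_of_nonneg_right (hD F) (Real.rpow_nonneg (Nat.cast_nonneg _) _)

/-- a product over a union is at most the product of the products -/
theorem prod_biUnion_le {ι κ : Type*} [DecidableEq κ] (D : Finset ι) (b : ι → Finset κ) (f : κ → ℕ)
    (hf : ∀ k, 1 ≤ f k) : ∏ v ∈ D.biUnion b, f v ≤ ∏ d ∈ D, ∏ v ∈ b d, f v := by
  classical
  induction D using Finset.induction_on with
  | empty => simp
  | insert d D hd ih =>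
    rw [biUnion_insert, prod_insert hd]
    have h1 : 1 ≤ ∏ v ∈ b d ∩ D.biUnion b, f v := Finset.one_le_prod' fun k _ => hf k
    calc ∏ v ∈ b d ∪ D.biUnion b, f v
        ≤ (∏ v ∈ b d ∪ D.biUnion b, f v) * ∏ v ∈ b d ∩ D.biUnion b, f v :=
          Nat.le_mul_of_pos_right _ h1
      _ = (∏ v ∈ b d, f v) * ∏ v ∈ D.biUnion b, f v := prod_union_inter
      _ ≤ _ := Nat.mul_le_mul le_rfl ih

/-- a set covered by `m` sets of which one has a large product -/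
theorem exists_large {ι κ : Type*} [DecidableEq κ] (D : Finset ι) (hD : D.Nonempty) (b : ι → Finset κ)
    (f : κ → ℕ) (hf : ∀ k, 1 ≤ f k) (B : Finset κ) (hB : B ⊆ D.biUnion b) :
    ∃ d ∈ D, ∏ v ∈ B, f v ≤ (∏ v ∈ b d, f v) ^ D.card := by
  classical
  obtain ⟨d, hd, hmax⟩ := D.exists_max_image (fun d => ∏ v ∈ b d, f v) hD
  refine ⟨d, hd, ?_⟩
  calc ∏ v ∈ B, f v ≤ ∏ v ∈ D.biUnion b, f v :=
        prod_le_prod_of_subset_of_one_le' hB fun k _ _ => hf k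
    _ ≤ ∏ d ∈ D, ∏ v ∈ b d, f v := prod_biUnion_le D b f hf
    _ ≤ ∏ _e ∈ D, ∏ v ∈ b d, f v := Finset.prod_le_prod' fun e he => hmax e he
    _ = _ := by rw [prod_const]

end Pool.Agent.X35.SP

namespace Pool.Agent.X35.SP

open Finset

/-- the number of multiples `N ≤ X` of `r` with `N ≤ r ^ μ` -/
theorem mult_leR {r X : ℕ} {μ : ℝ} (hμ : 0 ≤ μ) (hr : 1 ≤ r) (hX : 1 ≤ X) {a : ℝ} (ha0 : 0 ≤ a) (ha1 : a ≤ 1) :
    (((Ioc 0 X).filter (fun N => r ∣ N ∧ (N : ℝ) ≤ (r : ℝ) ^ μ)).card : ℝ) ≤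
      (X : ℝ) ^ (1 - a) * (r : ℝ) ^ (μ * a - 1) := by
  have hrp : (0 : ℝ) < r := by exact_mod_cast hr
  have hr1 : (1 : ℝ) ≤ r := by exact_mod_cast hr
  have hrμ : (1 : ℝ) ≤ (r : ℝ) ^ μ := Real.one_le_rpow hr1 hμ
  set Y : ℕ := min X ⌊(r : ℝ) ^ μ⌋₊ with hY
  have hsub : (Ioc 0 X).filter (fun N => r ∣ N ∧ (N : ℝ) ≤ (r : ℝ) ^ μ) ⊆
      (Ioc 0 Y).filter (fun N => r ∣ N) := by
    intro N hN
    rw [mem_filter, mem_Ioc] at hN ⊢
    exact ⟨⟨hN.1.1, le_min hN.1.2 (Nat.le_floor hN.2.2)⟩, hN.2.1⟩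
  have h1 : ((Ioc 0 X).filter (fun N => r ∣ N ∧ (N : ℝ) ≤ (r : ℝ) ^ μ)).card ≤ Y / r := by
    refine (card_le_card hsub).trans ?_
    rw [Nat.Ioc_filter_dvd_card_eq_div]
  have hY1 : 1 ≤ Y := le_min hX (Nat.le_floor (by exact_mod_cast hrμ))
  have hYp : (0 : ℝ) < Y := by exact_mod_cast hY1
  have h2 : (((Ioc 0 X).filter (fun N => r ∣ N ∧ (N : ℝ) ≤ (r : ℝ) ^ μ)).card : ℝ) ≤ Y / r := by
    calc (((Ioc 0 X).filter (fun N => r ∣ N ∧ (N : ℝ) ≤ (r : ℝ) ^ μ)).card : ℝ) ≤ ((Y / r : ℕ) : ℝ) := by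
          exact_mod_cast h1
      _ ≤ Y / r := Nat.cast_div_le
  have hYX : (Y : ℝ) ≤ X := by exact_mod_cast min_le_left _ _
  have hYr : (Y : ℝ) ≤ (r : ℝ) ^ μ := by
    refine le_trans ?_ (Nat.floor_le (by positivity : (0 : ℝ) ≤ (r : ℝ) ^ μ))
    exact_mod_cast min_le_right X ⌊(r : ℝ) ^ μ⌋₊
  have h3 : (Y : ℝ) ≤ (X : ℝ) ^ (1 - a) * (r : ℝ) ^ (μ * a) := by
    calc (Y : ℝ) = (Y : ℝ) ^ (1 - a) * (Y : ℝ) ^ a := by
          rw [← Real.rpow_add hYp]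
          norm_num
      _ ≤ (X : ℝ) ^ (1 - a) * ((r : ℝ) ^ μ) ^ a := by
          refine mul_le_mul (Real.rpow_le_rpow hYp.le hYX (by linarith))
            (Real.rpow_le_rpow hYp.le hYr ha0) (Real.rpow_nonneg hYp.le _)
            (Real.rpow_nonneg (Nat.cast_nonneg _) _)
      _ = (X : ℝ) ^ (1 - a) * (r : ℝ) ^ (μ * a) := by
          rw [← Real.rpow_mul hrp.le]
  refine h2.trans ?_
  rw [Real.rpow_sub hrp, Real.rpow_one, ← mul_div_assoc]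
  exact div_le_div_of_nonneg_right h3 hrp.le

/-- the number of integers which are multiples of a member of the family -/
theorem count_multR {T : Type} (r : T → ℕ) (hr : ∀ t, 1 ≤ r t) {σ D : ℝ} (hσ0 : 0 ≤ σ) (hσ : σ ≤ 1)
    (hD : ∀ F : Finset T, ∑ t ∈ F, (r t : ℝ) ^ (-σ) ≤ D) {μ : ℝ} (hm1 : 1 ≤ μ) (P : Set ℕ)
    (hP : ∀ N ∈ P, ∃ t, r t ∣ N ∧ (N : ℝ) ≤ (r t : ℝ) ^ μ) [DecidablePred (· ∈ P)] (X : ℕ) (hX : 1 ≤ X) :
    (((Ioc 0 X).filter (fun N => N ∈ P)).card : ℝ) ≤ D * (X : ℝ) ^ (1 - (1 - σ) / μ) := by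
  classical
  have hm0 : (0 : ℝ) < μ := by linarith
  obtain ⟨a, ha⟩ : ∃ a : ℝ, a = (1 - σ) / μ := ⟨_, rfl⟩
  have ha0 : 0 ≤ a := by rw [ha]; exact div_nonneg (by linarith) hm0.le
  have ha1 : a ≤ 1 := by
    rw [ha, div_le_one hm0]
    linarith
  have hma : μ * a - 1 = -σ := by
    rw [ha]
    field_simp
    ring
  rw [← ha]
  have hch : ∀ N : ℕ, ∃ t : Option T, N ∈ P → ∃ s, t = some s ∧ r s ∣ N ∧ (N : ℝ) ≤ (r s : ℝ) ^ μ := by
    intro N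
    by_cases h : N ∈ P
    · obtain ⟨s, h1, h2⟩ := hP N h
      exact ⟨some s, fun _ => ⟨s, rfl, h1, h2⟩⟩
    · exact ⟨none, fun h' => absurd h' h⟩
  choose f hf using hch
  set G := (Ioc 0 X).filter (fun N => N ∈ P) with hG
  set F : Finset T := (G.image f).eraseNone with hF
  have hcov : G ⊆ F.biUnion fun t => (Ioc 0 X).filter (fun N => r t ∣ N ∧ (N : ℝ) ≤ (r t : ℝ) ^ μ) := by
    intro N hN
    have hN' := mem_filter.1 hN
    obtain ⟨s, h1, h2, h3⟩ := hf N hN'.2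
    rw [mem_biUnion]
    refine ⟨s, ?_, ?_⟩
    · rw [hF, mem_eraseNone]
      exact mem_image.2 ⟨N, hN, h1⟩
    · rw [mem_filter]
      exact ⟨hN'.1, h2, h3⟩
  calc (G.card : ℝ) ≤ ((F.biUnion fun t =>
        (Ioc 0 X).filter (fun N => r t ∣ N ∧ (N : ℝ) ≤ (r t : ℝ) ^ μ)).card : ℝ) := by
        exact_mod_cast card_le_card hcov
    _ ≤ ∑ t ∈ F, (((Ioc 0 X).filter (fun N => r t ∣ N ∧ (N : ℝ) ≤ (r t : ℝ) ^ μ)).card : ℝ) := by
        exact_mod_cast card_biUnion_le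
    _ ≤ ∑ t ∈ F, (X : ℝ) ^ (1 - a) * (r t : ℝ) ^ (-σ) := by
        refine sum_le_sum fun t _ => ?_
        have h := mult_leR (μ := μ) hm0.le (hr t) hX ha0 ha1
        rwa [hma] at h
    _ = (∑ t ∈ F, (r t : ℝ) ^ (-σ)) * (X : ℝ) ^ (1 - a) := by
        rw [← mul_sum, mul_comm]
    _ ≤ D * (X : ℝ) ^ (1 - a) := mul_le_mul_of_nonneg_right (hD F) (Real.rpow_nonneg (Nat.cast_nonneg _) _)

/-- many subsets through every element: one of the subsets has a large product -/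
theorem exists_large2 {ι κ : Type*} [DecidableEq κ] (Q : Finset ι) (hQ : Q.Nonempty) (b : ι → Finset κ)
    (f : κ → ℕ) (hf : ∀ k, 1 ≤ f k) (B : Finset κ) (hb : ∀ T ∈ Q, b T ⊆ B) (C : ℕ)
    (hC : ∀ v ∈ B, C ≤ (Q.filter fun T => v ∈ b T).card) :
    ∃ T ∈ Q, (∏ v ∈ B, f v) ^ C ≤ (∏ v ∈ b T, f v) ^ Q.card := by
  classical
  obtain ⟨T, hT, hmax⟩ := Q.exists_max_image (fun T => ∏ v ∈ b T, f v) hQ
  refine ⟨T, hT, ?_⟩
  calc (∏ v ∈ B, f v) ^ C = ∏ v ∈ B, f v ^ C := (prod_pow _ _ _).symm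
    _ ≤ ∏ v ∈ B, f v ^ (Q.filter fun T => v ∈ b T).card :=
        Finset.prod_le_prod' fun v hv => Nat.pow_le_pow_right (hf v) (hC v hv)
    _ = ∏ v ∈ B, ∏ T ∈ Q, (if v ∈ b T then f v else 1) := by
        refine prod_congr rfl fun v _ => ?_
        rw [prod_ite, prod_const, prod_const_one, mul_one]
    _ = ∏ T ∈ Q, ∏ v ∈ B, (if v ∈ b T then f v else 1) := prod_comm
    _ = ∏ T ∈ Q, ∏ v ∈ b T, f v := by
        refine prod_congr rfl fun T hT => ?_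
        rw [prod_ite_mem]
        congr 1
        exact inter_eq_right.2 (hb T hT)
    _ ≤ ∏ _e ∈ Q, ∏ v ∈ b T, f v := Finset.prod_le_prod' fun e he => hmax e he
    _ = _ := by rw [prod_const]

end Pool.Agent.X35.SP
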