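import Pool.Agent.X174.WinFamC
import Pool.Agent.X134.Win.NF

/-! Sparse sets of positive integers near thin sequences. -/

set_option autoImplicit false

open Filter Topology MeasureTheory

namespace Pool.Agent.X35.SP

open Classical in
theorem nearN {ι : Type} [Countable ι] (Bs : ι → Set ℕ) {s : ℝ} (hs : 0 ≤ s)
    (hB : ∀ (q : ι) (ε : ℝ), 0 < ε → ∃ C : ℝ, ∀ X : ℕ, 1 ≤ X →
      (((Finset.Ioc 0 X).filter (fun N => N ∈ Bs q)).card : ℝ) ≤ C * (X : ℝ) ^ (s + ε))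
    {v : ℕ → ℝ} {τ ρ : ℝ} (hv1 : ∀ i, 1 ≤ v i) (hτ : 0 ≤ τ) (hv : Pool.Agent.Y854.GM.ExpLe v τ) (hρ : ρ < 1) :
    ∃ E : Set ℝ, dimH E ≤ ENNReal.ofReal ((s + τ) / (1 - ρ)) ∧ ∀ α : ℝ, α ∉ E →
      ∀ q : ι, ∀ c : ℝ, ∃ i₀ : ℕ, ∀ i : ℕ, i₀ ≤ i → ∀ N : ℕ, 1 ≤ N →
        |(N : ℝ) - α * v i| ≤ c * (v i) ^ ρ → N ∉ Bs q := by
  have h1ρ : 0 < 1 - ρ := by linarith
  have key : ∀ (k : ℕ) (q : ι), ∃ E : Set ℝ,
      dimH E ≤ ENNReal.ofReal ((s + 1 / ((k : ℝ) + 1) + τ) / (1 - ρ)) ∧ ∀ α : ℝ, α ∉ E →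
      ∀ c : ℝ, ∃ i₀ : ℕ, ∀ i : ℕ, i₀ ≤ i → ∀ N : ℕ, 1 ≤ N →
        |(N : ℝ) - α * v i| ≤ c * (v i) ^ ρ → N ∉ Bs q := by
    intro k q
    have hk : (0 : ℝ) < 1 / ((k : ℝ) + 1) := by positivity
    obtain ⟨C, hC⟩ := hB q _ hk
    obtain ⟨E, hE1, hE2⟩ := Pool.Agent.X174.winFamC (κ := Unit) (Q := ℕ)
      (fun N _ => (N : ℝ)) (fun T => {N : ℕ | 1 ≤ N ∧ (N : ℝ) ≤ T ∧ N ∈ Bs q})
      (s := s + 1 / ((k : ℝ) + 1)) (C := |C|) (by positivity)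
      (fun T hT => by
        have hT0 : 0 < T := by linarith
        have hF1 : 1 ≤ ⌊T⌋₊ := Nat.le_floor (by exact_mod_cast hT)
        have hsub : {N : ℕ | 1 ≤ N ∧ (N : ℝ) ≤ T ∧ N ∈ Bs q} ⊆
            (((Finset.Ioc 0 ⌊T⌋₊).filter (fun N => N ∈ Bs q) : Finset ℕ) : Set ℕ) := by
          rintro N ⟨h1, h2, h3⟩
          rw [Finset.mem_coe, Finset.mem_filter, Finset.mem_Ioc]
          exact ⟨⟨by omega, Nat.le_floor h2⟩, h3⟩
        refine ⟨(Finset.finite_toSet _).subset hsub, ?_⟩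
        have h1 := Set.ncard_le_ncard hsub (Finset.finite_toSet _)
        rw [Set.ncard_coe_finset] at h1
        calc (({N : ℕ | 1 ≤ N ∧ (N : ℝ) ≤ T ∧ N ∈ Bs q}).ncard : ℝ)
            ≤ (((Finset.Ioc 0 ⌊T⌋₊).filter (fun N => N ∈ Bs q)).card : ℝ) := by exact_mod_cast h1
          _ ≤ C * (⌊T⌋₊ : ℝ) ^ (s + 1 / ((k : ℝ) + 1)) := hC _ hF1
          _ ≤ |C| * (⌊T⌋₊ : ℝ) ^ (s + 1 / ((k : ℝ) + 1)) :=
              mul_le_mul_of_nonneg_right (le_abs_self C) (by positivity)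
          _ ≤ |C| * T ^ (s + 1 / ((k : ℝ) + 1)) :=
              mul_le_mul_of_nonneg_left (Real.rpow_le_rpow (Nat.cast_nonneg _)
                (Nat.floor_le hT0.le) (by positivity)) (abs_nonneg C))
      hv1 hτ hv hρ
    have hiso : Isometry (fun a : ℝ => (fun _ : Unit => a)) :=
      Isometry.of_dist_eq fun a b => dist_pi_const a b
    refine ⟨{a : ℝ | (fun _ : Unit => a) ∈ E}, ?_, fun α hα c => ?_⟩
    · rw [← hiso.dimH_image]
      refine (dimH_mono ?_).trans hE1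
      rintro _ ⟨a, ha, rfl⟩
      exact ha
    · obtain ⟨R, hR, hRc⟩ := Pool.Agent.X174.le_of_cubeC (fun _ : Unit => α) c
      obtain ⟨i₀, hi₀⟩ := hE2 (fun _ => α) hα R hR c
      refine ⟨i₀, fun i hi N hN1 hN hNB => hi₀ i hi N (fun _ => hN) ⟨hN1, ?_, hNB⟩⟩
      have h := hRc (fun _ => (N : ℝ)) (v i) ρ (hv1 i) hρ (fun _ => hN) ()
      exact (le_abs_self _).trans h
  choose Es h1 h2 using key
  refine ⟨⋂ k, ⋃ q, Es k q, ?_, fun α hα q c => ?_⟩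
  · have h3 : ∀ k : ℕ, dimH (⋂ k, ⋃ q, Es k q) ≤ ENNReal.ofReal ((s + 1 / ((k : ℝ) + 1) + τ) / (1 - ρ)) := fun k => by
      refine (dimH_mono (Set.iInter_subset _ k)).trans ?_
      rw [dimH_iUnion]
      exact iSup_le fun q => h1 k q
    have h4 : Tendsto (fun k : ℕ => ENNReal.ofReal ((s + 1 / ((k : ℝ) + 1) + τ) / (1 - ρ))) atTop
        (𝓝 (ENNReal.ofReal ((s + 0 + τ) / (1 - ρ)))) := by
      apply ENNReal.tendsto_ofReal
      exact ((tendsto_const_nhds.add tendsto_one_div_add_atTop_nhds_zero_nat).add_const _).div_const _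
    rw [add_zero] at h4
    exact ge_of_tendsto' h4 h3
  · obtain ⟨k, hk⟩ : ∃ k, α ∉ ⋃ q, Es k q := by
      by_contra hcon
      push Not at hcon
      exact hα (Set.mem_iInter.2 hcon)
    exact h2 k q α (fun h => hk (Set.mem_iUnion.2 ⟨q, h⟩)) c

/-- a set of Hausdorff dimension less than one has measure zero -/
theorem null_of_dim {E : Set ℝ} {d : ℝ} (hE : dimH E ≤ ENNReal.ofReal d) (hd : d < 1) :
    volume E = 0 := by
  have h1 : dimH E < ((1 : NNReal) : ENNReal) := by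
    refine hE.trans_lt ?_
    rw [ENNReal.coe_one]
    exact ENNReal.ofReal_lt_one.2 hd
  have h2 := hausdorffMeasure_of_dimH_lt h1
  rw [NNReal.coe_one, hausdorffMeasure_real] at h2
  exact h2

end Pool.Agent.X35.SP
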