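import Pool.Agent.X35.SP.Key2
import Pool.Agent.X35.SP.Near

/-! Integers near thin sequences and the conductors of tuples of points. -/

set_option autoImplicit false

open Filter Topology MeasureTheory NumberField IsDedekindDomain

namespace Pool.Agent.X35.SP

open Pool.Agent.X61.RI.Tup (Distinct)
open Pool.Agent.X134.Win (NF)

instance countable_primes (K : NF) : Countable (HeightOneSpectrum (𝓞 K.1)) := by
  have hK : Countable (𝓞 K.1) := Pool.Agent.X134.Win.countable_integers K.1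
  have h : ∀ v : HeightOneSpectrum (𝓞 K.1), ∃ s : Finset (𝓞 K.1),
      Ideal.span (s : Set (𝓞 K.1)) = v.asIdeal := fun v => IsNoetherian.noetherian v.asIdeal
  choose s hs using h
  have hinj : Function.Injective s := fun v w hvw => by
    apply HeightOneSpectrum.ext
    rw [← hs v, ← hs w, hvw]
  exact hinj.countable

/-- the integers `N` which are divisible by the conductor of an `n`-tuple, at least `N ^ (1 / k)` -/
def Mults (K : Type) [Field K] [NumberField K] (S : Finset (HeightOneSpectrum (𝓞 K))) (n k : ℕ) :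
    Set ℕ := {N | ∃ P : Fin n → Fin 2 → K, Distinct P ∧ cond S P ∣ N ∧ N ≤ (cond S P) ^ k}

theorem six_le {n : ℕ} (hn : 4 ≤ n) : 6 ≤ n.choose 2 := by
  calc 6 = Nat.choose 4 2 := by decide
    _ ≤ n.choose 2 := Nat.choose_le_choose 2 hn

open Classical in
theorem count_mults {K : Type} [Field K] [NumberField K] (S : Finset (HeightOneSpectrum (𝓞 K)))
    {n k : ℕ} (hn : 4 ≤ n) (hk : 1 ≤ k) {ε : ℝ} (hε : 0 < ε) :
    ∃ C : ℝ, ∀ X : ℕ, 1 ≤ X → (((Finset.Ioc 0 X).filter (fun N => N ∈ Mults K S n k)).card : ℝ) ≤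
      C * (X : ℝ) ^ (1 - 2 / (n.choose 2 * k : ℕ) + ε) := by
  have h6 := six_le hn
  obtain ⟨μ, hμ⟩ : ∃ μ : ℝ, μ = (k : ℝ) * (n.choose 2 : ℕ) / 6 := ⟨_, rfl⟩
  have hk1 : (1 : ℝ) ≤ k := by exact_mod_cast hk
  have h6' : (6 : ℝ) ≤ (n.choose 2 : ℕ) := by exact_mod_cast h6
  have hμ1 : 1 ≤ μ := by
    rw [hμ, le_div_iff₀ (by norm_num)]
    nlinarith
  have hm0 : 0 < μ := by linarith
  obtain ⟨σ, hσ⟩ : ∃ σ : ℝ, σ = min (2 / 3 + μ * ε) 1 := ⟨_, rfl⟩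
  have hσ1 : σ ≤ 1 := by rw [hσ]; exact min_le_right _ _
  have hσ2 : 2 / 3 < σ := by
    rw [hσ, lt_min_iff]
    exact ⟨by nlinarith [mul_pos hm0 hε], by norm_num⟩
  have hσ3 : σ ≤ 2 / 3 + μ * ε := by rw [hσ]; exact min_le_left _ _
  obtain ⟨D, hD, hb⟩ := rS_sum S hσ2
  refine ⟨D, fun X hX => ?_⟩
  have h := count_multR (rS S) (one_le_rS S) (by linarith) hσ1 hb hμ1 (Mults K S n k)
    (fun N hN => by
      obtain ⟨P, hP, hd, hN⟩ := hN
      obtain ⟨t, h1, h2⟩ := tuple_key2 hn hP S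
      refine ⟨t, h1.trans hd, ?_⟩
      have h3 := pow_key (k := k) hn (one_le_rS S t) h2
      rw [hμ]
      refine le_trans ?_ h3
      exact_mod_cast hN) X hX
  refine h.trans (mul_le_mul_of_nonneg_left ?_ hD.le)
  refine Real.rpow_le_rpow_of_exponent_le (by exact_mod_cast hX) ?_
  have e : 1 - 2 / ((n.choose 2 * k : ℕ) : ℝ) + ε = 1 - (1 - (2 / 3 + μ * ε)) / μ := by
    have hk0 : (0 : ℝ) < k := by linarith
    have hc0 : (0 : ℝ) < (n.choose 2 : ℕ) := by linarith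
    have e1 : 2 / ((n.choose 2 * k : ℕ) : ℝ) = 1 / 3 / μ := by
      rw [hμ]
      push_cast
      field_simp
      norm_num
    rw [e1]
    field_simp
    ring
  rw [e]
  have h2 : (1 - (2 / 3 + μ * ε)) / μ ≤ (1 - σ) / μ :=
    div_le_div_of_nonneg_right (by linarith) hm0.le
  linarith

/-- all tuples over all number fields near a thin sequence -/
theorem near_mults {n k : ℕ} (hn : 4 ≤ n) (hk : 1 ≤ k) {v : ℕ → ℝ} {τ ρ : ℝ} (hv1 : ∀ i, 1 ≤ v i)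
    (hτ : 0 ≤ τ) (hv : Pool.Agent.Y854.GM.ExpLe v τ) (hρ : ρ < 1) :
    ∃ E : Set ℝ, dimH E ≤ ENNReal.ofReal ((1 - 2 / (n.choose 2 * k : ℕ) + τ) / (1 - ρ)) ∧
      ∀ α : ℝ, α ∉ E →
      ∀ (K : NF) (S : Finset (HeightOneSpectrum (𝓞 K.1))) (c : ℝ), ∃ i₀ : ℕ, ∀ i : ℕ, i₀ ≤ i →
        ∀ N : ℕ, 1 ≤ N → |(N : ℝ) - α * v i| ≤ c * (v i) ^ ρ →
        ∀ P : Fin n → Fin 2 → K.1, Distinct P → cond S P ∣ N → (cond S P) ^ k < N := by
  have h6 := six_le hn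
  have hmr : (2 : ℝ) ≤ ((n.choose 2 * k : ℕ) : ℝ) := by
    exact_mod_cast (show 2 ≤ n.choose 2 * k by nlinarith)
  have hs : (0 : ℝ) ≤ 1 - 2 / (n.choose 2 * k : ℕ) := by
    rw [sub_nonneg, div_le_one (by linarith)]
    exact hmr
  obtain ⟨E, hE, h⟩ := nearN
    (ι := Σ K : NF, Finset (HeightOneSpectrum (𝓞 K.1)))
    (fun z => Mults z.1.1 z.2 n k) hs (fun z ε hε => count_mults z.2 hn hk hε) hv1 hτ hv hρ
  refine ⟨E, hE, fun α hα K S c => ?_⟩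
  obtain ⟨i₀, hi₀⟩ := h α hα ⟨K, S⟩ c
  refine ⟨i₀, fun i hi N hN1 hN P hP hd => ?_⟩
  by_contra hcon
  exact hi₀ i hi N hN1 hN ⟨P, hP, hd, not_lt.1 hcon⟩

/-- almost all `α` -/
theorem ae_mults {v : ℕ → ℝ} {τ ρ : ℝ} (hv1 : ∀ i, 1 ≤ v i)
    (hτ : 0 ≤ τ) (hv : Pool.Agent.Y854.GM.ExpLe v τ) (hρ : τ + ρ ≤ 0) :
    ∀ᵐ α : ℝ, ∀ n k : ℕ, 4 ≤ n → 1 ≤ k →
      ∀ (K : NF) (S : Finset (HeightOneSpectrum (𝓞 K.1))) (c : ℝ), ∃ i₀ : ℕ, ∀ i : ℕ, i₀ ≤ i →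
        ∀ N : ℕ, 1 ≤ N → |(N : ℝ) - α * v i| ≤ c * (v i) ^ ρ →
        ∀ P : Fin n → Fin 2 → K.1, Distinct P → cond S P ∣ N → (cond S P) ^ k < N := by
  rw [ae_all_iff]
  intro n
  rw [ae_all_iff]
  intro k
  by_cases hnk : 4 ≤ n ∧ 1 ≤ k
  · obtain ⟨hn, hk⟩ := hnk
    obtain ⟨E, hE, h⟩ := near_mults hn hk hv1 hτ hv (show ρ < 1 by linarith)
    have h6 := six_le hn
    have hmr : (0 : ℝ) < ((n.choose 2 * k : ℕ) : ℝ) := by
      exact_mod_cast (show 0 < n.choose 2 * k by nlinarith)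
    have hpos : (0 : ℝ) < 2 / (n.choose 2 * k : ℕ) := by positivity
    have hnull := null_of_dim hE (by
      rw [div_lt_one (by linarith)]
      linarith)
    have h2 : ∀ᵐ α : ℝ, α ∉ E := measure_eq_zero_iff_ae_notMem.1 hnull
    filter_upwards [h2] with α hα _ _
    exact h α hα
  · filter_upwards with α h1 h2
    exact absurd ⟨h1, h2⟩ hnk

end Pool.Agent.X35.SP
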