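import Pool.Agent.X35.SP.Tree

/-! A bad quadruple forces many bad quadruples. -/

set_option autoImplicit false

namespace Pool.Agent.X35.SP

open Finset

/-- the quadruple of indices is balanced in one, hence in every order -/
theorem bal_perm {n : ℕ} {D : Fin n → Fin n → ℝ} (h : IsTree D) {a b c d : Fin n}
    (hb : Bal D a b c d) {i j k l : Fin n} (hi : i ∈ ({a, b, c, d} : Finset (Fin n)))
    (hj : j ∈ ({a, b, c, d} : Finset (Fin n))) (hk : k ∈ ({a, b, c, d} : Finset (Fin n)))
    (hl : l ∈ ({a, b, c, d} : Finset (Fin n))) (hij : i ≠ j) (hik : i ≠ k) (hil : i ≠ l)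
    (hjk : j ≠ k) (hjl : j ≠ l) (hkl : k ≠ l) : D i j * D k l = D i k * D j l := by
  obtain ⟨h1, h2⟩ := hb
  have hba := h.symm b a
  have hca := h.symm c a
  have hda := h.symm d a
  have hcb := h.symm c b
  have hdb := h.symm d b
  have hdc := h.symm d c
  simp only [mem_insert, mem_singleton] at hi hj hk hl
  rcases hi with rfl | rfl | rfl | rfl <;> rcases hj with rfl | rfl | rfl | rfl <;>
    first
    | exact absurd rfl hij
    | (rcases hk with rfl | rfl | rfl | rfl <;>
        first
        | exact absurd rfl hik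
        | exact absurd rfl hjk
        | (rcases hl with rfl | rfl | rfl | rfl <;>
            first
            | exact absurd rfl hil
            | exact absurd rfl hjl
            | exact absurd rfl hkl
            | ((try simp only [hba, hca, hda, hcb, hdb, hdc]); linarith)))

/-- the number of quadruples which are separated -/
theorem choose_prod {a b : ℕ} (ha : 2 ≤ a) (hb : 2 ≤ b) :
    (a + b - 2).choose 2 ≤ a.choose 2 * b.choose 2 := by
  obtain ⟨x, rfl⟩ := Nat.exists_eq_add_of_le ha
  obtain ⟨y, rfl⟩ := Nat.exists_eq_add_of_le hb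
  have e1 : 2 + x + (2 + y) - 2 = x + y + 2 := by omega
  rw [e1]
  have h1 : ((x + y + 2).choose 2) * 2 = (x + y + 2) * (x + y + 1) := by
    rw [Nat.choose_two_right, Nat.div_mul_cancel (Nat.even_mul_pred_self _).two_dvd]
    congr 1
  have h2 : ((2 + x).choose 2) * 2 = (x + 2) * (x + 1) := by
    rw [Nat.choose_two_right, Nat.div_mul_cancel (Nat.even_mul_pred_self _).two_dvd]
    have : 2 + x - 1 = x + 1 := by omega
    rw [this]
    ring
  have h3 : ((2 + y).choose 2) * 2 = (y + 2) * (y + 1) := by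
    rw [Nat.choose_two_right, Nat.div_mul_cancel (Nat.even_mul_pred_self _).two_dvd]
    have : 2 + y - 1 = y + 1 := by omega
    rw [this]
    ring
  have h4 : 2 * ((x + y + 2) * (x + y + 1)) ≤ ((x + 2) * (x + 1)) * ((y + 2) * (y + 1)) := by
    have k1 : x + y + 1 ≤ (x + 1) * (y + 1) := by nlinarith
    have k2 : 2 * (x + y + 2) ≤ (x + 2) * (y + 2) := by nlinarith
    calc 2 * ((x + y + 2) * (x + y + 1)) = (2 * (x + y + 2)) * (x + y + 1) := by ring
      _ ≤ ((x + 2) * (y + 2)) * ((x + 1) * (y + 1)) := Nat.mul_le_mul k2 k1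
      _ = _ := by ring
  rw [← h1, ← h2, ← h3] at h4
  nlinarith

theorem many_bad {n : ℕ} {D : Fin n → Fin n → ℝ} (h : IsTree D) {p q r s : Fin n}
    (hpq : p ≠ q) (hpr : p ≠ r) (hps : p ≠ s) (hqr : q ≠ r) (hqs : q ≠ s) (hrs : r ≠ s)
    (hb : ¬ Bal D p q r s) (bad : Finset (Fin n) → Prop) [DecidablePred bad]
    (hbad : ∀ x y c e : Fin n, x ≠ y → x ≠ c → x ≠ e → y ≠ c → y ≠ e → c ≠ e →
      D x y * D c e ≠ D x c * D y e → bad {x, y, c, e}) :
    (n - 2).choose 2 ≤ ((powersetCard 4 (univ : Finset (Fin n))).filter bad).card := by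
  classical
  obtain ⟨I, hI, hJ, hlt⟩ := exists_edge h hpq hpr hps hqr hqs hrs hb
  have hn : n = I.card + Iᶜ.card := by
    rw [card_add_card_compl, Fintype.card_fin]
  have h1 : (n - 2).choose 2 ≤ I.card.choose 2 * (Iᶜ.card).choose 2 := by
    have := choose_prod hI hJ
    rwa [← hn] at this
  refine h1.trans ?_
  rw [← card_powersetCard, ← card_powersetCard, ← card_product]
  refine card_le_card_of_injOn (fun z => z.1 ∪ z.2) ?_ ?_
  · rintro ⟨A, B⟩ hz
    rw [mem_coe, mem_product, mem_powersetCard, mem_powersetCard] at hz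
    obtain ⟨⟨hA, hA2⟩, hB, hB2⟩ := hz
    dsimp only at hA hA2 hB hB2
    obtain ⟨x, y, hxy, rfl⟩ := card_eq_two.1 hA2
    obtain ⟨c, e, hce, rfl⟩ := card_eq_two.1 hB2
    have hx : x ∈ I := hA (by simp)
    have hy : y ∈ I := hA (by simp)
    have hc : c ∉ I := by
      have := hB (show c ∈ ({c, e} : Finset (Fin n)) by simp)
      rwa [mem_compl] at this
    have he : e ∉ I := by
      have := hB (show e ∈ ({c, e} : Finset (Fin n)) by simp)
      rwa [mem_compl] at this
    have hxc : x ≠ c := fun h' => hc (h' ▸ hx)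
    have hxe : x ≠ e := fun h' => he (h' ▸ hx)
    have hyc : y ≠ c := fun h' => hc (h' ▸ hy)
    have hye : y ≠ e := fun h' => he (h' ▸ hy)
    have e1 : ({x, y} : Finset (Fin n)) ∪ {c, e} = {x, y, c, e} := by
      ext z
      simp
      tauto
    rw [mem_coe, mem_filter, mem_powersetCard]
    dsimp only
    rw [e1]
    refine ⟨⟨subset_univ _, ?_⟩, hbad x y c e hxy hxc hxe hyc hye hce
      (hlt x hx y hy hxy c hc e he hce).ne⟩
    rw [card_insert_of_notMem (by simp [hxy, hxc, hxe]), card_insert_of_notMem (by simp [hyc, hye]),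
      card_pair hce]
  · rintro ⟨A, B⟩ hz ⟨A', B'⟩ hz' heq
    rw [mem_coe, mem_product, mem_powersetCard, mem_powersetCard] at hz hz'
    dsimp only at hz hz' heq
    have f1 : A = (A ∪ B) ∩ I := by
      ext z
      rw [mem_inter, mem_union]
      constructor
      · intro hz1
        exact ⟨Or.inl hz1, hz.1.1 hz1⟩
      · rintro ⟨hz1 | hz1, hz2⟩
        · exact hz1
        · exact absurd hz2 (mem_compl.1 (hz.2.1 hz1))
    have f2 : A' = (A' ∪ B') ∩ I := by
      ext z
      rw [mem_inter, mem_union]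
      constructor
      · intro hz1
        exact ⟨Or.inl hz1, hz'.1.1 hz1⟩
      · rintro ⟨hz1 | hz1, hz2⟩
        · exact hz1
        · exact absurd hz2 (mem_compl.1 (hz'.2.1 hz1))
    have g1 : B = (A ∪ B) \ I := by
      ext z
      rw [mem_sdiff, mem_union]
      constructor
      · intro hz1
        exact ⟨Or.inr hz1, mem_compl.1 (hz.2.1 hz1)⟩
      · rintro ⟨hz1 | hz1, hz2⟩
        · exact absurd (hz.1.1 hz1) hz2
        · exact hz1
    have g2 : B' = (A' ∪ B') \ I := by
      ext z
      rw [mem_sdiff, mem_union]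
      constructor
      · intro hz1
        exact ⟨Or.inr hz1, mem_compl.1 (hz'.2.1 hz1)⟩
      · rintro ⟨hz1 | hz1, hz2⟩
        · exact absurd (hz'.1.1 hz1) hz2
        · exact hz1
    rw [f1, f2, heq] 
    rw [Prod.mk.injEq]
    refine ⟨rfl, ?_⟩
    rw [g1, g2, heq]

end Pool.Agent.X35.SP
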