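import Pool.Agent.X35.SP.Main
import Pool.Agent.X35.SP.Sep

/-! The cross ratio of four of the points with many bad primes. -/

set_option autoImplicit false

namespace Pool.Agent.X35.SP

open NumberField IsDedekindDomain Finset
open Pool.Agent.H691R3 Pool.Agent.TH876.Loc Pool.Agent.Y911.RR
open Pool.Agent.X61.RI (UnitAt sp3 mem_opt all3 sdiff_bound)
open Pool.Agent.X61.RI.Tup

variable {K : Type} [Field K] [NumberField K]

/-- the sizes of the determinants -/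
noncomputable def Dv {n : ℕ} (v : Pr K) (P : Fin n → Fin 2 → K) (i j : Fin n) : ℝ :=
  fv v (det (P i) (P j))

theorem tree {n : ℕ} (v : Pr K) {P : Fin n → Fin 2 → K} (hP : Distinct P) : IsTree (Dv v P) where
  symm i j := by
    unfold Dv
    rw [det_comm, AbsoluteValue.map_neg]
  pos i j hij := (fv v).pos (hP i j hij)
  ultra i j k l := by
    unfold Dv
    rw [← map_mul, ← map_mul, ← map_mul]
    have e : det (P i) (P k) * det (P j) (P l) =
        det (P i) (P j) * det (P k) (P l) + det (P j) (P k) * det (P i) (P l) := by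
      unfold det
      ring
    rw [e]
    exact fv_na v _ _

theorem unit_iff {n : ℕ} {v : Pr K} {P : Fin n → Fin 2 → K} (hP : Distinct P) {i j k l : Fin n}
    (hil : i ≠ l) (hjk : j ≠ k) :
    UnitAt v (cr (P i) (P j) (P k) (P l)) ↔ Bal (Dv v P) i j k l := by
  have g1 := hP l i hil.symm
  have g2 := hP k j hjk.symm
  have p1 : (0 : ℝ) < fv v (det (P l) (P i)) := (fv v).pos g1
  have p2 : (0 : ℝ) < fv v (det (P k) (P j)) := (fv v).pos g2
  have hs := (tree v hP).symm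
  unfold UnitAt
  rw [val_eq_one, val_eq_one, cr_sub_one g1 g2]
  unfold cr
  rw [map_div₀, map_div₀, AbsoluteValue.map_neg, map_mul, map_mul, map_mul,
    div_eq_one_iff_eq (mul_pos p1 p2).ne', div_eq_one_iff_eq (mul_pos p1 p2).ne']
  unfold Bal
  have e1 : Dv v P k i = Dv v P i k := hs k i
  have e2 : Dv v P l j = Dv v P j l := hs l j
  have e3 : Dv v P l i = Dv v P i l := hs l i
  have e4 : Dv v P k j = Dv v P j k := hs k j
  have e5 : Dv v P l k = Dv v P k l := hs l k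
  show Dv v P l j * Dv v P k i = Dv v P l i * Dv v P k j ∧
    Dv v P l k * Dv v P i j = Dv v P l i * Dv v P k j ↔ _
  rw [e1, e2, e3, e4, e5]
  constructor
  · rintro ⟨h1, h2⟩
    constructor <;> linarith
  · rintro ⟨h1, h2⟩
    constructor <;> linarith

theorem four {n : ℕ} {T : Finset (Fin n)} (h : T.card = 4) : ∃ a b c d : Fin n,
    (a ≠ b ∧ a ≠ c ∧ a ≠ d ∧ b ≠ c ∧ b ≠ d ∧ c ≠ d) ∧ T = {a, b, c, d} := by
  classical
  obtain ⟨a, t, hat, rfl, ht⟩ := Finset.card_eq_succ.1 h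
  obtain ⟨b, c, d, hbc, hbd, hcd, rfl⟩ := Finset.card_eq_three.1 ht
  simp only [mem_insert, mem_singleton, not_or] at hat
  exact ⟨a, b, c, d, ⟨hat.1, hat.2.1, hat.2.2, hbc, hbd, hcd⟩, rfl⟩

theorem tuple_key2 {n : ℕ} (hn : 4 ≤ n) {P : Fin n → Fin 2 → K} (hP : Distinct P)
    (S : Finset (Pr K)) : ∃ t : {x : K // x ≠ 0 ∧ x ≠ 1},
      rS S t ∣ cond S P ∧ (cond S P) ^ ((n - 2).choose 2) ≤ (rS S t) ^ (n.choose 4) := by
  classical
  set i₀ : Fin n := ⟨0, by omega⟩ with hi0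
  set i₁ : Fin n := ⟨1, by omega⟩ with hi1
  set i₂ : Fin n := ⟨2, by omega⟩ with hi2
  have h01 : i₀ ≠ i₁ := by
    rw [hi0, hi1, Ne, Fin.mk.injEq]
    omega
  have h02 : i₀ ≠ i₂ := by
    rw [hi0, hi2, Ne, Fin.mk.injEq]
    omega
  have h12 : i₁ ≠ i₂ := by
    rw [hi1, hi2, Ne, Fin.mk.injEq]
    omega
  have hfin := bad_finite hP h01 h02 h12
  have hB : {v : Pr K | v ∉ S ∧ ¬ GoodAt v P}.Finite := hfin.subset fun v hv => hv.2
  have hcond : cond S P = ∏ v ∈ hB.toFinset, Ideal.absNorm v.asIdeal :=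
    finprod_mem_eq_finite_toFinset_prod _ hB
  set Q := powersetCard 4 (univ : Finset (Fin n)) with hQ
  have hcard : Q.card = n.choose 4 := by rw [hQ, card_powersetCard, card_univ, Fintype.card_fin]
  have hQne : Q.Nonempty := by
    rw [← card_pos, hcard]
    exact Nat.choose_pos hn
  have ht : ∀ T : Finset (Fin n), ∃ t : {x : K // x ≠ 0 ∧ x ≠ 1}, T ∈ Q → ∃ a b c d : Fin n,
      (a ≠ b ∧ a ≠ c ∧ a ≠ d ∧ b ≠ c ∧ b ≠ d ∧ c ≠ d) ∧ T = {a, b, c, d} ∧
      t.1 = cr (P a) (P b) (P c) (P d) := by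
    intro T
    by_cases hT : T ∈ Q
    · rw [hQ, mem_powersetCard] at hT
      obtain ⟨a, b, c, d, hd, hTe⟩ := four hT.2
      obtain ⟨k1, k2, k3, k4, k5, k6⟩ := hd
      exact ⟨⟨cr (P a) (P b) (P c) (P d), cr_off hP k1 k2 k3 k4 k5 k6⟩, fun _ =>
        ⟨a, b, c, d, ⟨k1, k2, k3, k4, k5, k6⟩, hTe, rfl⟩⟩
    · exact ⟨⟨2, two_ne_zero, by norm_num⟩, fun h' => absurd h' hT⟩
  choose t ht using ht
  have hsub : ∀ T ∈ Q, sp3 (t T) \ S ⊆ hB.toFinset := by
    intro T hT v hv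
    rw [mem_sdiff, mem_sp3] at hv
    rw [Set.Finite.mem_toFinset]
    refine ⟨hv.2, fun hg => hv.1 ?_⟩
    obtain ⟨a, b, c, d, ⟨k1, k2, k3, k4, k5, k6⟩, -, he⟩ := ht T hT
    rw [he]
    exact unitAt_of_good hg k1 k2 k3 k4 k5 k6
  have hmany : ∀ v ∈ hB.toFinset, (n - 2).choose 2 ≤
      (Q.filter fun T => v ∈ sp3 (t T) \ S).card := by
    intro v hv
    rw [Set.Finite.mem_toFinset] at hv
    obtain ⟨hvS, hvb⟩ := hv
    -- some quadruple is not balanced
    have hex : ∃ i j : Fin n, i ≠ i₀ ∧ i ≠ i₁ ∧ j ≠ i₀ ∧ j ≠ i₁ ∧ i ≠ j ∧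
        ¬ Bal (Dv v P) i₀ i₁ i j := by
      by_contra hcon
      push Not at hcon
      apply hvb
      refine good_of_unitAt hP h01 h02 h12 fun i j a1 a2 a3 a4 a5 => ?_
      rw [unit_iff hP a3.symm a2.symm]
      exact hcon i j a1 a2 a3 a4 a5
    obtain ⟨i, j, a1, a2, a3, a4, a5, hnb⟩ := hex
    have h := many_bad (tree v hP) h01 a1.symm a3.symm a2.symm a4.symm a5 hnb
      (fun T => T ∈ Q ∧ v ∈ sp3 (t T) \ S) (by
        intro x y c e hxy hxc hxe hyc hye hce hD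
        have hT : ({x, y, c, e} : Finset (Fin n)) ∈ Q := by
          rw [hQ, mem_powersetCard]
          refine ⟨subset_univ _, ?_⟩
          rw [card_insert_of_notMem (by simp [hxy, hxc, hxe]),
            card_insert_of_notMem (by simp [hyc, hye]), card_pair hce]
        refine ⟨hT, ?_⟩
        rw [mem_sdiff, mem_sp3]
        refine ⟨fun hu => hD ?_, hvS⟩
        obtain ⟨a, b, c', d, ⟨k1, k2, k3, k4, k5, k6⟩, hTe, he⟩ := ht _ hT
        rw [he, unit_iff hP k3 k4] at hu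
        refine bal_perm (tree v hP) hu ?_ ?_ ?_ ?_ hxy hxc hxe hyc hye hce
        · rw [← hTe]; simp
        · rw [← hTe]; simp
        · rw [← hTe]; simp
        · rw [← hTe]; simp)
    refine h.trans (card_le_card fun T hT => ?_)
    rw [mem_filter] at hT ⊢
    exact hT.2
  obtain ⟨T, hT, hle⟩ := exists_large2 Q hQne (fun T => sp3 (t T) \ S)
    (fun v : Pr K => Ideal.absNorm v.asIdeal) one_le_absNorm hB.toFinset hsub _ hmany
  refine ⟨t T, ?_, ?_⟩
  · rw [hcond]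
    unfold rS
    convert Finset.prod_dvd_prod_of_subset _ _ (fun v : Pr K => Ideal.absNorm v.asIdeal) (hsub T hT)
  · rw [hcond, ← hcard]
    unfold rS
    convert hle

/-- `cond ^ k ≤ r ^ (k (n choose 2) / 6)` -/
theorem pow_key {n k c r : ℕ} (hn : 4 ≤ n) (hr : 1 ≤ r)
    (h : c ^ ((n - 2).choose 2) ≤ r ^ (n.choose 4)) :
    ((c ^ k : ℕ) : ℝ) ≤ (r : ℝ) ^ ((k : ℝ) * (n.choose 2 : ℕ) / 6) := by
  have hc0 : (0 : ℝ) ≤ c := Nat.cast_nonneg _
  have hr0 : (0 : ℝ) < r := by exact_mod_cast hr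
  have hm : 1 ≤ (n - 2).choose 2 := Nat.choose_pos (by omega)
  have hm0 : (0 : ℝ) < ((n - 2).choose 2 : ℕ) := by exact_mod_cast hm
  have hid : n.choose 4 * 6 = n.choose 2 * (n - 2).choose 2 := by
    have := Nat.choose_mul (n := n) (k := 4) (s := 2) (by norm_num)
    have h42 : Nat.choose 4 2 = 6 := by decide
    rw [h42] at this
    exact this
  have hid' : ((n.choose 4 : ℕ) : ℝ) * 6 = (n.choose 2 : ℕ) * ((n - 2).choose 2 : ℕ) := by
    exact_mod_cast hid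
  have h1 : ((c : ℝ) ^ ((n - 2).choose 2)) ≤ (r : ℝ) ^ (n.choose 4) := by exact_mod_cast h
  have h2 : (c : ℝ) ≤ (r : ℝ) ^ (((n.choose 2 : ℕ) : ℝ) / 6) := by
    have h3 : ((c : ℝ) ^ ((n - 2).choose 2)) ^ (1 / (((n - 2).choose 2 : ℕ) : ℝ)) ≤
        ((r : ℝ) ^ (n.choose 4)) ^ (1 / (((n - 2).choose 2 : ℕ) : ℝ)) :=
      Real.rpow_le_rpow (pow_nonneg hc0 _) h1 (by positivity)
    rw [← Real.rpow_natCast, ← Real.rpow_natCast, ← Real.rpow_mul hc0, ← Real.rpow_mul hr0.le,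
      mul_one_div_cancel hm0.ne', Real.rpow_one] at h3
    refine h3.trans (le_of_eq ?_)
    congr 1
    field_simp
    linarith
  calc ((c ^ k : ℕ) : ℝ) = (c : ℝ) ^ k := by push_cast; rfl
    _ ≤ ((r : ℝ) ^ (((n.choose 2 : ℕ) : ℝ) / 6)) ^ k := pow_le_pow_left₀ hc0 h2 k
    _ = (r : ℝ) ^ ((k : ℝ) * (n.choose 2 : ℕ) / 6) := by
        rw [← Real.rpow_natCast, ← Real.rpow_mul hr0.le]
        congr 1
        ring

end Pool.Agent.X35.SP
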