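import Pool.Agent.X61.RI.Tup
import Pool.Agent.X61.RI.Part
import Pool.Agent.X35.SP.Cnt

/-! The number of the integers which are the product of the norms of the primes of bad reduction
of a tuple of points of the projective line. -/

set_option autoImplicit false

namespace Pool.Agent.X35.SP

open NumberField IsDedekindDomain Finset
open Pool.Agent.H691R3 Pool.Agent.TH876.Loc Pool.Agent.Y911.RR
open Pool.Agent.X61.RI (UnitAt sp3 mem_opt all3 sdiff_bound)
open Pool.Agent.X61.RI.Tup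

variable {K : Type} [Field K] [NumberField K]

/-- the product of the norms of the primes of bad reduction outside `S` -/
noncomputable def cond {K : Type} [Field K] [NumberField K] (S : Finset (HeightOneSpectrum (𝓞 K)))
    {n : ℕ} (P : Fin n → Fin 2 → K) : ℕ :=
  ∏ᶠ (v : HeightOneSpectrum (𝓞 K)) (_ : v ∈ {v : HeightOneSpectrum (𝓞 K) | v ∉ S ∧ ¬ GoodAt v P}),
    Ideal.absNorm v.asIdeal

open Classical in
/-- the same for the solution of the unit equation -/
noncomputable def rS (S : Finset (Pr K)) (x : {x : K // x ≠ 0 ∧ x ≠ 1}) : ℕ :=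
  ∏ v ∈ sp3 x \ S, Ideal.absNorm v.asIdeal

theorem one_le_absNorm (v : Pr K) : 1 ≤ Ideal.absNorm v.asIdeal := by
  have h := one_le_Nv v
  have h2 : (Nv v : ℝ) = (Ideal.absNorm v.asIdeal : ℝ) := rfl
  rw [h2] at h
  exact_mod_cast h

theorem one_le_rS (S : Finset (Pr K)) (x : {x : K // x ≠ 0 ∧ x ≠ 1}) : 1 ≤ rS S x :=
  Finset.one_le_prod' fun v _ => one_le_absNorm v

theorem mem_sp3 (v : Pr K) (x : {x : K // x ≠ 0 ∧ x ≠ 1}) : v ∈ sp3 x ↔ ¬ UnitAt v x.1 :=
  mem_opt v x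

theorem rS_sum (S : Finset (Pr K)) {σ : ℝ} (hσ : 2 / 3 < σ) : ∃ D : ℝ, 0 < D ∧
    ∀ F : Finset {x : K // x ≠ 0 ∧ x ≠ 1}, ∑ t ∈ F, (rS S t : ℝ) ^ (-σ) ≤ D := by
  classical
  obtain ⟨D, hD, hb⟩ := all3 (K := K) hσ
  refine ⟨(nn S) ^ σ * D, mul_pos (Real.rpow_pos_of_pos (nn_pos _) _) hD, fun F => ?_⟩
  calc ∑ t ∈ F, (rS S t : ℝ) ^ (-σ) ≤ ∑ t ∈ F, (nn S) ^ σ * (nn (sp3 t)) ^ (-σ) := by
        refine sum_le_sum fun t _ => ?_
        have h := sdiff_bound S (sp3 t) (τ := σ) (by linarith)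
        have e : (rS S t : ℝ) = nn (sp3 t \ S) := by
          unfold rS nn
          push_cast
          refine Finset.prod_congr ?_ fun v _ => rfl
          congr
        rw [e]
        exact h
    _ = (nn S) ^ σ * ∑ t ∈ F, (nn (sp3 t)) ^ (-σ) := by rw [mul_sum]
    _ ≤ (nn S) ^ σ * D := mul_le_mul_of_nonneg_left (hb F) (Real.rpow_nonneg (nn_pos _).le _)

omit [NumberField K] in
theorem cr_swap (x y z w : Fin 2 → K) : cr x y w z = (cr x y z w)⁻¹ := by
  unfold cr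
  rw [inv_div, mul_comm (det z y), mul_comm (det z x)]

theorem unitAt_inv {v : Pr K} {x : K} (h : UnitAt v x) : UnitAt v x⁻¹ := by
  obtain ⟨h1, h2⟩ := h
  have hx : x ≠ 0 := by
    rintro rfl
    rw [map_zero] at h1
    exact zero_ne_one h1
  refine ⟨by rw [map_inv₀, h1, inv_one], ?_⟩
  have e : x⁻¹ - 1 = -(x - 1) / x := by
    field_simp
    ring
  rw [e, map_div₀, Valuation.map_neg, h1, h2, div_one]

theorem card_D (n : ℕ) : ((range (n - 2)).sigma fun b => range b).card = (n - 2).choose 2 := by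
  rw [card_sigma]
  simp only [card_range]
  rw [Finset.sum_range_id, Nat.choose_two_right]

theorem tuple_key {n : ℕ} (hn : 4 ≤ n) {P : Fin n → Fin 2 → K} (hP : Distinct P)
    (S : Finset (Pr K)) : ∃ t : {x : K // x ≠ 0 ∧ x ≠ 1},
      rS S t ∣ cond S P ∧ cond S P ≤ (rS S t) ^ ((n - 2).choose 2) := by
  classical
  set i₀ : Fin n := ⟨0, by omega⟩ with hi0
  set i₁ : Fin n := ⟨1, by omega⟩ with hi1
  set i₂ : Fin n := ⟨2, by omega⟩ with hi2
  have h01 : i₀ ≠ i₁ := by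
    rw [hi0, hi1, Ne, Fin.mk.injEq]
    omega
  have h02 : i₀ ≠ i₂ := by
    rw [hi0, hi2, Ne, Fin.mk.injEq]
    omega
  have h12 : i₁ ≠ i₂ := by
    rw [hi1, hi2, Ne, Fin.mk.injEq]
    omega
  have hfin := bad_finite hP h01 h02 h12
  have hB : {v : Pr K | v ∉ S ∧ ¬ GoodAt v P}.Finite := hfin.subset fun v hv => hv.2
  have hcond : cond S P = ∏ v ∈ hB.toFinset, Ideal.absNorm v.asIdeal :=
    finprod_mem_eq_finite_toFinset_prod _ hB
  have ht : ∀ d : Σ _ : ℕ, ℕ, ∃ t : {x : K // x ≠ 0 ∧ x ≠ 1}, ∀ (h1 : d.1 + 2 < n)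
      (h2 : d.2 < d.1), t.1 = cr (P i₀) (P i₁) (P ⟨d.2 + 2, by omega⟩) (P ⟨d.1 + 2, h1⟩) := by
    intro d
    by_cases h : d.1 + 2 < n ∧ d.2 < d.1
    · obtain ⟨h1, h2⟩ := h
      refine ⟨⟨cr (P i₀) (P i₁) (P ⟨d.2 + 2, by omega⟩) (P ⟨d.1 + 2, h1⟩), ?_⟩, fun _ _ => rfl⟩
      refine cr_off hP h01 ?_ ?_ ?_ ?_ ?_
      · rw [hi0, Ne, Fin.mk.injEq]; omega
      · rw [hi0, Ne, Fin.mk.injEq]; omega
      · rw [hi1, Ne, Fin.mk.injEq]; omega
      · rw [hi1, Ne, Fin.mk.injEq]; omega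
      · rw [Ne, Fin.mk.injEq]; omega
    · refine ⟨⟨2, two_ne_zero, by norm_num⟩, fun h1 h2 => absurd ⟨h1, h2⟩ h⟩
  choose t ht using ht
  set D := (range (n - 2)).sigma fun b => range b with hD
  have hDne : D.Nonempty := ⟨⟨1, 0⟩, by
    rw [hD, mem_sigma, mem_range, mem_range]
    exact ⟨by dsimp only; omega, by dsimp only; omega⟩⟩
  have hmemD : ∀ d ∈ D, d.1 + 2 < n ∧ d.2 < d.1 := by
    intro d hd
    rw [hD, mem_sigma, mem_range, mem_range] at hd
    exact ⟨by omega, hd.2⟩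
  have hcov : hB.toFinset ⊆ D.biUnion fun d => sp3 (t d) \ S := by
    intro v hv
    rw [Set.Finite.mem_toFinset] at hv
    by_contra hcon
    have hun : ∀ i j : Fin n, 2 ≤ i.val → i.val < j.val → UnitAt v (cr (P i₀) (P i₁) (P i) (P j)) := by
      intro i j hi hij
      by_contra hu
      apply hcon
      rw [mem_biUnion]
      refine ⟨⟨j.val - 2, i.val - 2⟩, ?_, ?_⟩
      · rw [hD, mem_sigma, mem_range, mem_range]
        refine ⟨?_, ?_⟩
        · dsimp only
          have := j.isLt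
          omega
        · dsimp only
          omega
      · rw [mem_sdiff]
        refine ⟨?_, hv.1⟩
        rw [mem_sp3]
        have hj := j.isLt
        have e := ht ⟨j.val - 2, i.val - 2⟩ (by dsimp only; omega) (by dsimp only; omega)
        rw [e]
        have e1 : (⟨i.val - 2 + 2, by omega⟩ : Fin n) = i := by
          apply Fin.ext
          dsimp only
          omega
        have e2 : (⟨j.val - 2 + 2, by omega⟩ : Fin n) = j := by
          apply Fin.ext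
          dsimp only
          omega
        dsimp only
        rw [e1, e2]
        exact hu
    apply hv.2
    refine good_of_unitAt hP h01 h02 h12 fun i j a1 a2 a3 a4 a5 => ?_
    have b1 : 2 ≤ i.val := by
      have c1 : i.val ≠ 0 := fun h => a1 (Fin.ext h)
      have c2 : i.val ≠ 1 := fun h => a2 (Fin.ext h)
      omega
    have b2 : 2 ≤ j.val := by
      have c1 : j.val ≠ 0 := fun h => a3 (Fin.ext h)
      have c2 : j.val ≠ 1 := fun h => a4 (Fin.ext h)
      omega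
    have b3 : i.val ≠ j.val := fun h => a5 (Fin.ext h)
    rcases lt_or_gt_of_ne b3 with h | h
    · exact hun i j b1 h
    · rw [cr_swap]
      exact unitAt_inv (hun j i b2 h)
  obtain ⟨d, hd, hle⟩ := exists_large D hDne (fun d => sp3 (t d) \ S)
    (fun v : Pr K => Ideal.absNorm v.asIdeal) one_le_absNorm hB.toFinset hcov
  refine ⟨t d, ?_, ?_⟩
  · rw [hcond]
    unfold rS
    have hsub : sp3 (t d) \ S ⊆ hB.toFinset := by
      intro v hv
      rw [mem_sdiff, mem_sp3] at hv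
      rw [Set.Finite.mem_toFinset]
      refine ⟨hv.2, fun hg => hv.1 ?_⟩
      obtain ⟨h1, h2⟩ := hmemD d hd
      rw [ht d h1 h2]
      refine unitAt_of_good hg h01 ?_ ?_ ?_ ?_ ?_
      · rw [hi0, Ne, Fin.mk.injEq]; omega
      · rw [hi0, Ne, Fin.mk.injEq]; omega
      · rw [hi1, Ne, Fin.mk.injEq]; omega
      · rw [hi1, Ne, Fin.mk.injEq]; omega
      · rw [Ne, Fin.mk.injEq]; omega
    convert Finset.prod_dvd_prod_of_subset _ _ (fun v : Pr K => Ideal.absNorm v.asIdeal) hsub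
  · rw [hcond, ← card_D n]
    unfold rS
    convert hle

/-- the conductors outside `S` of the `n`-tuples over `K` -/
def Conds (K : Type) [Field K] [NumberField K] (S : Finset (HeightOneSpectrum (𝓞 K))) (n : ℕ) :
    Set ℕ := {N | ∃ P : Fin n → Fin 2 → K, Distinct P ∧ N = cond S P}

open Classical in
theorem count (S : Finset (Pr K)) {n : ℕ} (hn : 4 ≤ n) {ε : ℝ} (hε : 0 < ε) :
    ∃ C : ℝ, ∀ X : ℕ, 1 ≤ X → (((Ioc 0 X).filter (fun N => N ∈ Conds K S n)).card : ℝ) ≤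
      C * (X : ℝ) ^ (1 - 1 / (3 * ((n - 2).choose 2 : ℝ)) + ε) := by
  have hm : 1 ≤ (n - 2).choose 2 := Nat.choose_pos (by omega)
  have hmr : (1 : ℝ) ≤ ((n - 2).choose 2 : ℕ) := by exact_mod_cast hm
  have hm0 : (0 : ℝ) < ((n - 2).choose 2 : ℕ) := by linarith
  obtain ⟨σ, hσ⟩ : ∃ σ : ℝ, σ = min (2 / 3 + ((n - 2).choose 2 : ℕ) * ε) 1 := ⟨_, rfl⟩
  have hσ1 : σ ≤ 1 := by rw [hσ]; exact min_le_right _ _
  have hσ2 : 2 / 3 < σ := by
    rw [hσ, lt_min_iff]
    exact ⟨by nlinarith [mul_pos hm0 hε], by norm_num⟩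
  have hσ3 : σ ≤ 2 / 3 + ((n - 2).choose 2 : ℕ) * ε := by rw [hσ]; exact min_le_left _ _
  obtain ⟨D, hD, hb⟩ := rS_sum S hσ2
  refine ⟨D, fun X hX => ?_⟩
  have h := count_mult (rS S) (one_le_rS S) (by linarith) hσ1 hb hm (Conds K S n)
    (fun N hN => by
      obtain ⟨P, hP, rfl⟩ := hN
      exact tuple_key hn hP S) X hX
  refine h.trans (mul_le_mul_of_nonneg_left ?_ hD.le)
  refine Real.rpow_le_rpow_of_exponent_le (by exact_mod_cast hX) ?_
  have e : 1 - 1 / (3 * (((n - 2).choose 2 : ℕ) : ℝ)) + ε =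
      1 - (1 - (2 / 3 + ((n - 2).choose 2 : ℕ) * ε)) / ((n - 2).choose 2 : ℕ) := by
    field_simp
    ring
  rw [e]
  have h2 : (1 - (2 / 3 + (((n - 2).choose 2 : ℕ) : ℝ) * ε)) / ((n - 2).choose 2 : ℕ) ≤
      (1 - σ) / ((n - 2).choose 2 : ℕ) := div_le_div_of_nonneg_right (by linarith) hm0.le
  linarith

end Pool.Agent.X35.SP
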