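import Mathlib

/-! Functions of pairs with the four point condition: there is an edge, or all quadruples are
balanced. -/

set_option autoImplicit false

namespace Pool.Agent.X35.SP

open Finset

/-- symmetric, positive off the diagonal, four point condition -/
structure IsTree {n : ℕ} (D : Fin n → Fin n → ℝ) : Prop where
  symm : ∀ i j, D i j = D j i
  pos : ∀ i j, i ≠ j → 0 < D i j
  ultra : ∀ i j k l, D i k * D j l ≤ max (D i j * D k l) (D j k * D i l)

/-- the three products are equal -/
def Bal {n : ℕ} (D : Fin n → Fin n → ℝ) (i j k l : Fin n) : Prop :=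
  D i j * D k l = D i k * D j l ∧ D i k * D j l = D i l * D j k

theorem exists_edge {n : ℕ} {D : Fin n → Fin n → ℝ} (h : IsTree D) {p q r s : Fin n}
    (hpq : p ≠ q) (hpr : p ≠ r) (hps : p ≠ s) (hqr : q ≠ r) (hqs : q ≠ s) (hrs : r ≠ s)
    (hb : ¬ Bal D p q r s) : ∃ I : Finset (Fin n), 2 ≤ I.card ∧ 2 ≤ Iᶜ.card ∧
      ∀ x ∈ I, ∀ y ∈ I, x ≠ y → ∀ c, c ∉ I → ∀ e, e ∉ I → c ≠ e →
        D x y * D c e < D x c * D y e := by
  classical
  -- the point at infinity is `s`
  set E : Fin n → Fin n → ℝ := fun i j => D i j / (D i s * D j s) with hE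
  have hDs : ∀ i, i ≠ s → 0 < D i s := fun i hi => h.pos i s hi
  have hDE : ∀ i j, i ≠ s → j ≠ s → D i j = E i j * (D i s * D j s) := by
    intro i j hi hj
    have h1 := hDs i hi
    have h2 := hDs j hj
    rw [hE]
    field_simp
  have hEpos : ∀ i j, i ≠ s → j ≠ s → i ≠ j → 0 < E i j := fun i j hi hj hij =>
    div_pos (h.pos i j hij) (mul_pos (hDs i hi) (hDs j hj))
  have hEs : ∀ i j, E i j = E j i := by
    intro i j
    rw [hE]
    dsimp only
    rw [h.symm i j, mul_comm]
  have hEu : ∀ i j k, i ≠ s → j ≠ s → k ≠ s → E i k ≤ max (E i j) (E j k) := by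
    intro i j k hi hj hk
    have h1 := hDs i hi
    have h2 := hDs j hj
    have h3 := hDs k hk
    have h4 := h.ultra i j k s
    rw [hDE i k hi hk, hDE i j hi hj, hDE j k hj hk] at h4
    have h5 : 0 < D i s * D k s * D j s := by positivity
    rcases le_max_iff.1 h4 with h6 | h6
    · refine le_max_of_le_left ?_
      nlinarith
    · refine le_max_of_le_right ?_
      nlinarith
  -- the closest pair
  set pairs : Finset (Fin n × Fin n) := univ.filter fun z => z.1 ≠ s ∧ z.2 ≠ s ∧ z.1 ≠ z.2 with hpairs
  have hne : pairs.Nonempty := ⟨(p, q), by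
    rw [hpairs, mem_filter]
    exact ⟨mem_univ _, hps, hqs, hpq⟩⟩
  obtain ⟨⟨a, b⟩, hab, hmin⟩ := pairs.exists_min_image (fun z => E z.1 z.2) hne
  rw [hpairs, mem_filter] at hab
  obtain ⟨-, has, hbs, hab⟩ := hab
  dsimp only at has hbs hab
  have hmin' : ∀ i j, i ≠ s → j ≠ s → i ≠ j → E a b ≤ E i j := fun i j hi hj hij =>
    hmin (i, j) (by rw [hpairs, mem_filter]; exact ⟨mem_univ _, hi, hj, hij⟩)
  obtain ⟨m, hm⟩ : ∃ m, m = E a b := ⟨_, rfl⟩
  rw [← hm] at hmin'
  have hm0 : 0 < m := by rw [hm]; exact hEpos a b has hbs hab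
  set I : Finset (Fin n) := univ.filter fun j => j ≠ s ∧ (j = a ∨ E j a ≤ m) with hI
  have hmemI : ∀ j, j ∈ I ↔ j ≠ s ∧ (j = a ∨ E j a ≤ m) := fun j => by
    rw [hI, mem_filter]
    simp
  have haI : a ∈ I := (hmemI a).2 ⟨has, Or.inl rfl⟩
  have hbI : b ∈ I := (hmemI b).2 ⟨hbs, Or.inr (by rw [hEs, hm])⟩
  have hsI : s ∉ I := fun h' => ((hmemI s).1 h').1 rfl
  -- inside `I` all distances are at most `m`
  have hin : ∀ x ∈ I, ∀ y ∈ I, x ≠ y → E x y ≤ m := by
    intro x hx y hy hxy
    obtain ⟨hxs, hx'⟩ := (hmemI x).1 hx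
    obtain ⟨hys, hy'⟩ := (hmemI y).1 hy
    rcases hx' with rfl | hx'
    · rcases hy' with rfl | hy'
      · exact absurd rfl hxy
      · rw [hEs]
        exact hy'
    · rcases hy' with rfl | hy'
      · exact hx'
      · refine (hEu x a y hxs has hys).trans (max_le hx' ?_)
        rw [hEs]
        exact hy'
  -- distances to the outside
  have hout : ∀ x ∈ I, ∀ c, c ∉ I → c ≠ s → m < E x c := by
    intro x hx c hc hcs
    obtain ⟨hxs, hx'⟩ := (hmemI x).1 hx
    have hca : ¬ (c = a ∨ E c a ≤ m) := fun h' => hc ((hmemI c).2 ⟨hcs, h'⟩)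
    rw [not_or, not_le] at hca
    rcases hx' with rfl | hx'
    · rw [hEs]
      exact hca.2
    · have h1 := hEu c x a hcs hxs has
      rcases le_max_iff.1 h1 with h2 | h2
      · rw [hEs x c]
        exact lt_of_lt_of_le hca.2 h2
      · linarith [hca.2]
  refine ⟨I, ?_, ?_, ?_⟩
  · have : ({a, b} : Finset (Fin n)) ⊆ I := by
      intro z hz
      rw [mem_insert, mem_singleton] at hz
      rcases hz with rfl | rfl
      · exact haI
      · exact hbI
    calc 2 = ({a, b} : Finset (Fin n)).card := (card_pair hab).symm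
      _ ≤ I.card := card_le_card this
  · -- there is another point outside
    have hex : ∃ c, c ∉ I ∧ c ≠ s := by
      by_contra hcon
      push Not at hcon
      have hall : ∀ i, i ≠ s → i ∈ I := fun i hi => by
        by_contra h'
        exact hi (hcon i h')
      have heq : ∀ i j, i ≠ s → j ≠ s → i ≠ j → E i j = m := fun i j hi hj hij =>
        le_antisymm (hin i (hall i hi) j (hall j hj) hij) (hmin' i j hi hj hij)
      apply hb
      have e1 := hDE p q hps hqs
      have e2 := hDE p r hps hrs
      have e3 := hDE q r hqs hrs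
      rw [heq p q hps hqs hpq] at e1
      rw [heq p r hps hrs hpr] at e2
      rw [heq q r hqs hrs hqr] at e3
      constructor
      · rw [e1, e2]
        ring
      · rw [e2, e3]
        ring
    obtain ⟨c, hc, hcs⟩ := hex
    have : ({c, s} : Finset (Fin n)) ⊆ Iᶜ := by
      intro z hz
      rw [mem_insert, mem_singleton] at hz
      rw [mem_compl]
      rcases hz with rfl | rfl
      · exact hc
      · exact hsI
    calc 2 = ({c, s} : Finset (Fin n)).card := (card_pair hcs).symm
      _ ≤ Iᶜ.card := card_le_card this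
  · intro x hx y hy hxy c hc e he hce
    obtain ⟨hxs, -⟩ := (hmemI x).1 hx
    obtain ⟨hys, -⟩ := (hmemI y).1 hy
    have hxc : x ≠ c := fun h' => hc (h' ▸ hx)
    have hye : y ≠ e := fun h' => he (h' ▸ hy)
    have k1 := hin x hx y hy hxy
    have dx := hDs x hxs
    have dy := hDs y hys
    have kxy := hEpos x y hxs hys hxy
    by_cases hcs : c = s
    · have hes : e ≠ s := fun h' => hce (hcs.trans h'.symm)
      have de := hDs e hes
      have k2 := hout y hy e he hes
      rw [hcs, hDE x y hxs hys, hDE y e hys hes, h.symm s e]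
      have h5 : 0 < D x s * D y s * D e s := by positivity
      nlinarith
    · by_cases hes : e = s
      · have dc := hDs c hcs
        have k2 := hout x hx c hc hcs
        rw [hes, hDE x y hxs hys, hDE x c hxs hcs]
        have h5 : 0 < D x s * D y s * D c s := by positivity
        nlinarith
      · have dc := hDs c hcs
        have de := hDs e hes
        have k2 := hout x hx c hc hcs
        have k3 := hout y hy e he hes
        have k4 := hout x hx e he hes
        have k5 : E x e ≤ E y e := by
          rcases le_max_iff.1 (hEu x y e hxs hys hes) with h6 | h6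
          · linarith
          · exact h6
        have k6 : E c e ≤ max (E x c) (E y e) := by
          rcases le_max_iff.1 (hEu c x e hcs hxs hes) with h6 | h6
          · rw [hEs c x] at h6
            exact le_max_of_le_left h6
          · exact le_max_of_le_right (h6.trans k5)
        have k7 : E x y * E c e < E x c * E y e := by
          have hce' := hEpos c e hcs hes hce
          rcases le_max_iff.1 k6 with h6 | h6
          · calc E x y * E c e ≤ m * E x c := mul_le_mul k1 h6 hce'.le hm0.le
              _ < E y e * E x c := mul_lt_mul_of_pos_right k3 (by linarith)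
              _ = E x c * E y e := mul_comm _ _
          · calc E x y * E c e ≤ m * E y e := mul_le_mul k1 h6 hce'.le hm0.le
              _ < E x c * E y e := mul_lt_mul_of_pos_right k2 (by linarith)
        rw [hDE x y hxs hys, hDE c e hcs hes, hDE x c hxs hcs, hDE y e hys hes]
        have h5 : 0 < D x s * D y s * (D c s * D e s) := by positivity
        nlinarith [mul_lt_mul_of_pos_right k7 h5]

end Pool.Agent.X35.SP
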